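
import Pool.Agent.H887.BK.D2

/-!
# Part Min of project BK (MP_17d720_ag): minors of the Frobenius relation
-/

set_option autoImplicit false
set_option linter.unusedSectionVars false

namespace Pool.Agent.H694.BKMin

open Finset

section CB
variable {m A : Type} [Fintype m] [DecidableEq m] [CommRing A]

theorem det_mul_submatrix {n : Type} [Fintype n] [DecidableEq n] (M N : Matrix m m A)
    (α γ : n → m) : ((M * N).submatrix α γ).det =
      ∑ h : n → m, (∏ i, M (α i) (h i)) * (N.submatrix h γ).det := by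
  rw [← Matrix.det_transpose, Matrix.det_apply']
  have h1 : ∀ σ : Equiv.Perm n, ∏ i, ((M * N).submatrix α γ).transpose (σ i) i =
      ∑ h : n → m, (∏ i, M (α i) (h i)) * ∏ i, N (h i) (γ (σ i)) := by
    intro σ
    simp only [Matrix.transpose_apply, Matrix.submatrix_apply, Matrix.mul_apply]
    rw [Finset.prod_univ_sum, Fintype.piFinset_univ]
    refine Finset.sum_congr rfl fun h _ => ?_
    rw [Finset.prod_mul_distrib]
  simp only [h1, Finset.mul_sum]
  rw [Finset.sum_comm]
  refine Finset.sum_congr rfl fun h _ => ?_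
  rw [← Matrix.det_transpose (N.submatrix h γ), Matrix.det_apply', Finset.mul_sum]
  refine Finset.sum_congr rfl fun σ _ => ?_
  simp only [Matrix.transpose_apply, Matrix.submatrix_apply]
  ring

theorem cauchy_binet {n : Type} [Fintype n] [DecidableEq n] (M N : Matrix m m A)
    (α γ : n → m) : ((Fintype.card n).factorial : A) * ((M * N).submatrix α γ).det =
      ∑ h : n → m, (M.submatrix α h).det * (N.submatrix h γ).det := by
  rw [det_mul_submatrix]
  have h1 : ∀ h : n → m, (M.submatrix α h).det * (N.submatrix h γ).det =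
      ∑ σ : Equiv.Perm n, (∏ i, M (α i) (h (σ i))) * (N.submatrix (h ∘ σ) γ).det := by
    intro h
    rw [← Matrix.det_transpose (M.submatrix α h), Matrix.det_apply', Finset.sum_mul]
    refine Finset.sum_congr rfl fun σ _ => ?_
    have h2 : (N.submatrix (h ∘ σ) γ) = (N.submatrix h γ).submatrix σ id := rfl
    rw [h2, Matrix.det_permute]
    simp only [Matrix.transpose_apply, Matrix.submatrix_apply]
    ring
  simp only [h1]
  rw [Finset.sum_comm]
  have h3 : ∀ σ : Equiv.Perm n, (∑ h : n → m, (∏ i, M (α i) (h (σ i))) *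
      (N.submatrix (h ∘ σ) γ).det) = ∑ h : n → m, (∏ i, M (α i) (h i)) *
      (N.submatrix h γ).det := by
    intro σ
    exact Fintype.sum_equiv (Equiv.arrowCongr σ.symm (Equiv.refl m)) _ _ (fun h => rfl)
  simp only [h3]
  rw [Finset.sum_const, Finset.card_univ, Fintype.card_perm, nsmul_eq_mul]

end CB

section Lat
variable {R F : Type} [CommRing R] [Field F] [Algebra R F]

/-- the coefficients of index `< M` lie in `lam ^ s R` -/
def Lat (lam : R) (s M : ℕ) (f : PowerSeries F) : Prop :=
  ∀ n < M, ∃ y : R, PowerSeries.coeff n f = algebraMap R F (lam ^ s * y)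

variable {lam : R} {s t M : ℕ} {f g : PowerSeries F}

theorem Lat.mono (h : Lat lam s M f) (hts : t ≤ s) : Lat lam t M f := by
  intro n hn
  obtain ⟨y, hy⟩ := h n hn
  refine ⟨lam ^ (s - t) * y, ?_⟩
  rw [hy, ← mul_assoc, ← pow_add, Nat.add_sub_cancel' hts]

theorem Lat.add (h : Lat lam s M f) (h' : Lat lam s M g) : Lat lam s M (f + g) := by
  intro n hn
  obtain ⟨y, hy⟩ := h n hn
  obtain ⟨z, hz⟩ := h' n hn
  exact ⟨y + z, by rw [map_add, hy, hz, ← map_add, mul_add]⟩

theorem Lat.neg (h : Lat lam s M f) : Lat lam s M (-f) := by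
  intro n hn
  obtain ⟨y, hy⟩ := h n hn
  exact ⟨-y, by rw [map_neg, hy, ← map_neg, mul_neg]⟩

theorem Lat.sub (h : Lat lam s M f) (h' : Lat lam s M g) : Lat lam s M (f - g) := by
  rw [sub_eq_add_neg]; exact h.add h'.neg

theorem Lat.zero : Lat lam s M (0 : PowerSeries F) := fun n _ => ⟨0, by simp⟩

theorem Lat.sum {ι : Type} (S : Finset ι) (f : ι → PowerSeries F)
    (h : ∀ i ∈ S, Lat lam s M (f i)) : Lat lam s M (∑ i ∈ S, f i) := by
  classical
  induction S using Finset.induction_on with
  | empty => simpa using Lat.zero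
  | insert a S ha ih =>
    rw [Finset.sum_insert ha]
    exact (h a (Finset.mem_insert_self a S)).add (ih fun i hi => h i (Finset.mem_insert_of_mem hi))

theorem Lat.mul (h : Lat lam s M f) (h' : Lat lam t M g) : Lat lam (s + t) M (f * g) := by
  intro n hn
  rw [PowerSeries.coeff_mul]
  have h1 : ∀ x ∈ HasAntidiagonal.antidiagonal n, ∃ y : R, PowerSeries.coeff x.1 f * PowerSeries.coeff x.2 g =
      algebraMap R F (lam ^ (s + t) * y) := by
    intro x hx
    rw [HasAntidiagonal.mem_antidiagonal] at hx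
    obtain ⟨y, hy⟩ := h x.1 (by omega)
    obtain ⟨z, hz⟩ := h' x.2 (by omega)
    refine ⟨y * z, ?_⟩
    rw [hy, hz, ← map_mul]
    congr 1
    ring
  choose! y hy using h1
  refine ⟨∑ x ∈ HasAntidiagonal.antidiagonal n, y x, ?_⟩
  rw [Finset.mul_sum, map_sum]
  exact Finset.sum_congr rfl hy

theorem Lat.ofMap (f : PowerSeries R) : Lat lam 0 M (PowerSeries.map (algebraMap R F) f) :=
  fun n _ => ⟨PowerSeries.coeff n f, by simp⟩

theorem Lat.X_pow (f : PowerSeries F) : Lat lam s M (PowerSeries.X ^ M * f) := by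
  intro n hn
  refine ⟨0, ?_⟩
  rw [PowerSeries.coeff_X_pow_mul']
  simp [hn]

theorem Lat.mul_right (h : Lat lam s M f) (h' : Lat lam 0 M g) : Lat lam s M (f * g) := by
  simpa using h.mul h'

theorem Lat.mul_left (h : Lat lam 0 M f) (h' : Lat lam s M g) : Lat lam s M (f * g) := by
  simpa using h.mul h'

theorem Lat.Cpow (h : Lat lam s M f) (k : ℕ) :
    Lat lam (s + k) M (PowerSeries.C (algebraMap R F (lam ^ k)) * f) := by
  intro n hn
  obtain ⟨y, hy⟩ := h n hn
  refine ⟨y, ?_⟩
  rw [PowerSeries.coeff_C_mul, hy, ← map_mul]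
  congr 1
  ring

theorem Lat.cancel [IsDomain R] [IsFractionRing R F] (hl : lam ≠ 0) (k : ℕ)
    (h : Lat lam (s + k) M (PowerSeries.C (algebraMap R F (lam ^ k)) * f)) : Lat lam s M f := by
  intro n hn
  obtain ⟨y, hy⟩ := h n hn
  refine ⟨y, ?_⟩
  rw [PowerSeries.coeff_C_mul, pow_add, mul_assoc, mul_comm, ← mul_assoc, map_mul (algebraMap R F), 
    ] at hy
  have h0 : algebraMap R F (lam ^ k) ≠ 0 := by
    rw [Ne, IsFractionRing.to_map_eq_zero_iff]
    exact pow_ne_zero k hl
  apply mul_right_cancel₀ h0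
  rw [hy, ← map_mul, ← map_mul]
  congr 1
  ring

theorem Lat.prod {ι : Type} (S : Finset ι) (f : ι → PowerSeries F)
    (h : ∀ i ∈ S, Lat lam 0 M (f i)) : Lat lam 0 M (∏ i ∈ S, f i) := by
  classical
  induction S using Finset.induction_on with
  | empty =>
    have := Lat.ofMap (F := F) (lam := lam) (M := M) (1 : PowerSeries R)
    simpa using this
  | insert a S ha ih =>
    rw [Finset.prod_insert ha]
    exact (h a (Finset.mem_insert_self a S)).mul_left
      (ih fun i hi => h i (Finset.mem_insert_of_mem hi))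

theorem Lat.prod_sub {ι : Type} (S : Finset ι) (f g : ι → PowerSeries F)
    (h : ∀ i ∈ S, Lat lam 0 M (f i)) (h' : ∀ i ∈ S, Lat lam 0 M (g i))
    (h2 : ∀ i ∈ S, Lat lam s M (f i - g i)) : Lat lam s M (∏ i ∈ S, f i - ∏ i ∈ S, g i) := by
  classical
  induction S using Finset.induction_on with
  | empty => simpa using Lat.zero
  | insert a S ha ih =>
    rw [Finset.prod_insert ha, Finset.prod_insert ha]
    have e : f a * ∏ i ∈ S, f i - g a * ∏ i ∈ S, g i =
        (f a - g a) * ∏ i ∈ S, f i + g a * (∏ i ∈ S, f i - ∏ i ∈ S, g i) := by ring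
    rw [e]
    refine ((h2 a (Finset.mem_insert_self a S)).mul_right (Lat.prod S f fun i hi =>
      h i (Finset.mem_insert_of_mem hi))).add ?_
    exact (h' a (Finset.mem_insert_self a S)).mul_left
      (ih (fun i hi => h i (Finset.mem_insert_of_mem hi))
        (fun i hi => h' i (Finset.mem_insert_of_mem hi))
        (fun i hi => h2 i (Finset.mem_insert_of_mem hi)))

theorem Lat.det {n : Type} [Fintype n] [DecidableEq n] (P : Matrix n n (PowerSeries F))
    (h : ∀ i j, Lat lam 0 M (P i j)) : Lat lam 0 M P.det := by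
  rw [Matrix.det_apply']
  refine Lat.sum _ _ fun σ _ => ?_
  refine Lat.mul_left ?_ (Lat.prod _ _ fun i _ => h _ _)
  have := Lat.ofMap (F := F) (lam := lam) (M := M) (((Equiv.Perm.sign σ : ℤ) : PowerSeries R))
  simpa using this

theorem Lat.det_sub {n : Type} [Fintype n] [DecidableEq n] (P Q : Matrix n n (PowerSeries F))
    (h : ∀ i j, Lat lam 0 M (P i j)) (h' : ∀ i j, Lat lam 0 M (Q i j))
    (h2 : ∀ i j, Lat lam s M (P i j - Q i j)) : Lat lam s M (P.det - Q.det) := by
  rw [Matrix.det_apply', Matrix.det_apply', ← Finset.sum_sub_distrib]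
  refine Lat.sum _ _ fun σ _ => ?_
  rw [← mul_sub]
  refine Lat.mul_left ?_ (Lat.prod_sub _ _ _ (fun i _ => h _ _) (fun i _ => h' _ _)
    (fun i _ => h2 _ _))
  have := Lat.ofMap (F := F) (lam := lam) (M := M) (((Equiv.Perm.sign σ : ℤ) : PowerSeries R))
  simpa using this

end Lat


section Main

open PowerSeries

/-- constants of `R` as power series over `F` -/
noncomputable def Cl (F : Type) {R : Type} [CommRing R] [Field F] [Algebra R F] (x : R) :
    PowerSeries F := PowerSeries.C (algebraMap R F x)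

section
variable {R F : Type} [CommRing R] [Field F] [Algebra R F]

theorem Cl_mul (x y : R) : Cl F (x * y) = Cl F x * Cl F y := by simp [Cl]

theorem Cl_pow (x : R) (n : ℕ) : Cl F (x ^ n) = Cl F x ^ n := by simp [Cl]

theorem Cl_prod {ι : Type} (S : Finset ι) (f : ι → R) : Cl F (∏ i ∈ S, f i) = ∏ i ∈ S, Cl F (f i) := by
  simp [Cl]

theorem Cl_eq_map (x : R) : Cl F x = PowerSeries.map (algebraMap R F) (PowerSeries.C x) := by
  simp [Cl]

theorem Lat_expand {lam : R} {p : ℕ} (hp : p ≠ 0) {M : ℕ} {f : PowerSeries F} (h2 : 2 ≤ p)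
    (h : Lat lam 0 M f) (h0 : ∃ y : R, PowerSeries.coeff 0 f = algebraMap R F y) :
    Lat lam 0 (M + 1) (PowerSeries.expand p hp f) := by
  intro n hn
  rw [PowerSeries.coeff_expand]
  split_ifs with hd
  · rcases Nat.eq_zero_or_pos n with rfl | hpos
    · obtain ⟨y, hy⟩ := h0
      exact ⟨y, by simpa using hy⟩
    · have : n / p < n := Nat.div_lt_self hpos (by omega)
      exact h (n / p) (by omega)
  · exact ⟨0, by simp⟩
end

variable {m : Type} [Fintype m] [DecidableEq m] {R F : Type} [CommRing R] [IsDomain R] [Field F]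
  [Algebra R F] [IsFractionRing R F]

omit [Fintype m] [DecidableEq m] in
theorem step0 {lam : R} (hl : lam ≠ 0) (M s k : ℕ) (c : R)
    (hc : lam ^ k = ((M.factorial : ℕ) : R) * c)
    (E : PowerSeries F) (Z : PowerSeries R) (Z' : PowerSeries F)
    (h : (M.factorial : PowerSeries F) * E =
      PowerSeries.map (algebraMap R F) (PowerSeries.C (lam ^ (s + k)) * Z) +
        PowerSeries.X ^ M * Z') : Lat lam s M E := by
  apply Lat.cancel hl k
  have e : PowerSeries.C (algebraMap R F (lam ^ k)) * E =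
      PowerSeries.C (algebraMap R F (lam ^ (s + k))) *
        PowerSeries.map (algebraMap R F) (PowerSeries.C c * Z) +
      PowerSeries.X ^ M * (PowerSeries.C (algebraMap R F c) * Z') := by
    have e1 : PowerSeries.C (algebraMap R F (lam ^ k)) * E =
        PowerSeries.C (algebraMap R F c) * ((M.factorial : PowerSeries F) * E) := by
      rw [hc]
      simp only [map_mul, map_natCast]
      ring
    rw [e1, h]
    simp only [map_mul, PowerSeries.map_C]
    ring
  rw [e]
  refine Lat.add ?_ (Lat.X_pow _)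
  simpa using (Lat.ofMap (F := F) (lam := lam) (M := M) (PowerSeries.C c * Z)).Cpow (s + k)

omit [IsDomain R] [IsFractionRing R F] [DecidableEq m] in
theorem step1 {lam : R} (Y : Matrix m m (PowerSeries F))
    (hY : ∀ (n : ℕ) (u v : m), ∃ (k : ℕ) (y : R),
      algebraMap R F (lam ^ k) * PowerSeries.coeff n (Y u v) = algebraMap R F y) (M : ℕ) :
    ∃ k0, ∀ u v, Lat lam 0 M (Cl F (lam ^ k0) * Y u v) := by
  choose k y hk using hY
  refine ⟨∑ n ∈ Finset.range M, ∑ u, ∑ v, k n u v, fun u v n hn => ?_⟩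
  have hle : k n u v ≤ ∑ n ∈ Finset.range M, ∑ u, ∑ v, k n u v := by
    calc k n u v ≤ ∑ v, k n u v :=
          Finset.single_le_sum (f := fun v => k n u v) (fun _ _ => Nat.zero_le _)
            (Finset.mem_univ v)
      _ ≤ ∑ u, ∑ v, k n u v :=
          Finset.single_le_sum (f := fun u => ∑ v, k n u v) (fun _ _ => Nat.zero_le _)
            (Finset.mem_univ u)
      _ ≤ _ :=
          Finset.single_le_sum (f := fun n => ∑ u, ∑ v, k n u v) (fun _ _ => Nat.zero_le _)
            (Finset.mem_range.2 hn)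
  obtain ⟨d, hd⟩ := Nat.exists_eq_add_of_le hle
  refine ⟨lam ^ d * y n u v, ?_⟩
  rw [hd, Cl, PowerSeries.coeff_C_mul, pow_add, map_mul, pow_zero, one_mul, map_mul, ← hk n u v]
  ring

omit [Fintype m] [DecidableEq m] in
theorem step2 {n : Type} [Fintype n] [DecidableEq n] {lam : R} (hl : lam ≠ 0) (k0 s M : ℕ)
    (P Q : Matrix n n (PowerSeries F)) (hQ : ∀ i j, Lat lam 0 M (Cl F (lam ^ k0) * Q i j))
    (hPQ : ∀ i j, Lat lam (s + k0 * Fintype.card n) M (P i j - Q i j)) :
    Lat lam s M (P.det - Q.det) := by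
  apply Lat.cancel hl (k0 * Fintype.card n)
  have hP : ∀ i j, Lat lam (s + k0 * Fintype.card n) M
      ((Cl F (lam ^ k0) • P) i j - (Cl F (lam ^ k0) • Q) i j) := by
    intro i j
    rw [Matrix.smul_apply, Matrix.smul_apply, smul_eq_mul, smul_eq_mul, ← mul_sub]
    refine Lat.mul_left ?_ (hPQ i j)
    rw [Cl_eq_map]
    exact Lat.ofMap _
  have hQ' : ∀ i j, Lat lam 0 M ((Cl F (lam ^ k0) • Q) i j) := hQ
  have hP' : ∀ i j, Lat lam 0 M ((Cl F (lam ^ k0) • P) i j) := by
    intro i j
    have := ((hP i j).mono (Nat.zero_le _)).add (hQ' i j)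
    simpa using this
  have := Lat.det_sub _ _ hP' hQ' hP
  rw [Matrix.det_smul, Matrix.det_smul, ← mul_sub, ← Cl_pow, ← pow_mul] at this
  exact this

theorem step3 {I : Type} [Fintype I] [DecidableEq I] (w : m → ℕ) (q : ℕ) (α γ : I → m)
    (hα : ∀ δ : I → m, Function.Injective δ → ∑ i, w (α i) ≤ ∑ i, w (δ i))
    {lam : R} (hl : lam ≠ 0) {p : ℕ} (hp : p ≠ 0) (M k0 : ℕ) (Y : Matrix m m (PowerSeries F))
    (hk0 : ∀ u v, Lat lam 0 M (Cl F (lam ^ k0) * Y u v)) (b : Matrix m m (PowerSeries R))
    (β : m → R)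
    (hrel : ∀ u v, Lat lam ((1 + q * ∑ i, w (α i)) + k0 * Fintype.card I) M
      (∑ x, PowerSeries.expand p hp (Y u x) * (Cl F (lam ^ (q * w x)) *
        PowerSeries.map (algebraMap R F) (b x v)) - Cl F (lam ^ (q * w u) * β u) * Y u v)) :
    Lat lam 1 M (((Fintype.card I).factorial : PowerSeries F) *
      (Cl F (∏ i, β (α i)) * (Y.submatrix α γ).det) -
      ∑ δ : I → m, PowerSeries.expand p hp (Y.submatrix α δ).det *
        (Cl F (lam ^ (q * (∑ i, w (δ i) - ∑ i, w (α i)))) *
          PowerSeries.map (algebraMap R F) (b.submatrix δ γ).det)) := by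
  set A : Matrix m m (PowerSeries F) := Y.map (PowerSeries.expand p hp) with hA
  set DB : Matrix m m (PowerSeries F) :=
    Matrix.of fun x v => Cl F (lam ^ (q * w x)) * PowerSeries.map (algebraMap R F) (b x v) with hDB
  set P : Matrix I I (PowerSeries F) := (A * DB).submatrix α γ with hP
  set Q : Matrix I I (PowerSeries F) :=
    Matrix.of fun i j => Cl F (lam ^ (q * w (α i)) * β (α i)) * (Y.submatrix α γ) i j with hQ
  have h2 : Lat lam (1 + q * ∑ i, w (α i)) M (P.det - Q.det) := by
    refine step2 hl k0 _ M P Q ?_ ?_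
    · intro i j
      simp only [hQ, Matrix.of_apply, Matrix.submatrix_apply]
      have e : Cl F (lam ^ k0) * (Cl F (lam ^ (q * w (α i)) * β (α i)) * Y (α i) (γ j)) =
          Cl F (lam ^ (q * w (α i)) * β (α i)) * (Cl F (lam ^ k0) * Y (α i) (γ j)) := by ring
      rw [e]
      refine Lat.mul_left ?_ (hk0 _ _)
      rw [Cl_eq_map]
      exact Lat.ofMap _
    · intro i j
      have := hrel (α i) (γ j)
      simpa [hP, hQ, hA, hDB, Matrix.mul_apply] using this
  have h3 : ((Fintype.card I).factorial : PowerSeries F) * P.det =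
      ∑ δ : I → m, PowerSeries.expand p hp (Y.submatrix α δ).det *
        (Cl F (lam ^ (q * ∑ i, w (δ i))) *
          PowerSeries.map (algebraMap R F) (b.submatrix δ γ).det) := by
    rw [hP, cauchy_binet]
    refine Finset.sum_congr rfl fun δ _ => ?_
    congr 1
    · rw [AlgHom.map_det]
      rfl
    · have e : DB.submatrix δ γ = Matrix.of fun i j => Cl F (lam ^ (q * w (δ i))) *
          ((b.submatrix δ γ).map (PowerSeries.map (algebraMap R F))) i j := by
        ext i j
        simp [hDB]
      rw [e, Matrix.det_mul_column, RingHom.map_det]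
      congr 1
      rw [← Cl_prod, Finset.prod_pow_eq_pow_sum, Finset.mul_sum]
  have h4 : Q.det = Cl F (lam ^ (q * ∑ i, w (α i))) * (Cl F (∏ i, β (α i)) *
      (Y.submatrix α γ).det) := by
    rw [hQ, Matrix.det_mul_column, ← Cl_prod, Finset.prod_mul_distrib,
      Finset.prod_pow_eq_pow_sum, ← Finset.mul_sum, Cl_mul, mul_assoc]
  apply Lat.cancel hl (q * ∑ i, w (α i))
  have h5 : Cl F (lam ^ (q * ∑ i, w (α i))) * (((Fintype.card I).factorial : PowerSeries F) *
      (Cl F (∏ i, β (α i)) * (Y.submatrix α γ).det) -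
      ∑ δ : I → m, PowerSeries.expand p hp (Y.submatrix α δ).det *
        (Cl F (lam ^ (q * (∑ i, w (δ i) - ∑ i, w (α i)))) *
          PowerSeries.map (algebraMap R F) (b.submatrix δ γ).det)) =
      -(((Fintype.card I).factorial : PowerSeries F) * (P.det - Q.det)) := by
    rw [mul_sub, mul_sub, h3, h4]
    have h6 : ∀ δ : I → m, Cl F (lam ^ (q * ∑ i, w (α i))) *
        (PowerSeries.expand p hp (Y.submatrix α δ).det *
        (Cl F (lam ^ (q * (∑ i, w (δ i) - ∑ i, w (α i)))) *
          PowerSeries.map (algebraMap R F) (b.submatrix δ γ).det)) =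
        PowerSeries.expand p hp (Y.submatrix α δ).det *
        (Cl F (lam ^ (q * ∑ i, w (δ i))) *
          PowerSeries.map (algebraMap R F) (b.submatrix δ γ).det) := by
      intro δ
      by_cases hδ : Function.Injective δ
      · have e : q * ∑ i, w (δ i) = q * ∑ i, w (α i) + q * (∑ i, w (δ i) - ∑ i, w (α i)) := by
          rw [← mul_add, Nat.add_sub_cancel' (hα δ hδ)]
        rw [e, pow_add, Cl_mul]
        ring
      · have e : (Y.submatrix α δ).det = 0 := by
          rw [Function.Injective] at hδ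
          push Not at hδ
          obtain ⟨i, j, hij, hne⟩ := hδ
          exact Matrix.det_zero_of_column_eq hne (fun k => by simp [hij])
        rw [e]
        simp
    have h7 : Cl F (lam ^ (q * ∑ i, w (α i))) *
        ∑ δ : I → m, PowerSeries.expand p hp (Y.submatrix α δ).det *
        (Cl F (lam ^ (q * (∑ i, w (δ i) - ∑ i, w (α i)))) *
          PowerSeries.map (algebraMap R F) (b.submatrix δ γ).det) =
        ∑ δ : I → m, PowerSeries.expand p hp (Y.submatrix α δ).det *
        (Cl F (lam ^ (q * ∑ i, w (δ i))) *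
          PowerSeries.map (algebraMap R F) (b.submatrix δ γ).det) := by
      rw [Finset.mul_sum]
      exact Finset.sum_congr rfl fun δ _ => h6 δ
    rw [h7]
    ring
  show Lat lam (1 + q * ∑ i, w (α i)) M (Cl F (lam ^ (q * ∑ i, w (α i))) * _)
  rw [h5]
  refine Lat.neg (Lat.mul_left ?_ h2)
  have := Lat.ofMap (F := F) (lam := lam) (M := M) (((Fintype.card I).factorial : PowerSeries R))
  simpa using this


omit [IsDomain R] [IsFractionRing R F] in
theorem const_det {I : Type} [Fintype I] [DecidableEq I] (Y : Matrix m m (PowerSeries F))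
    (hY : ∀ u v, PowerSeries.constantCoeff (Y u v) = if u = v then 1 else 0) (α δ : I → m) :
    ∃ y : R, PowerSeries.coeff 0 (Y.submatrix α δ).det = algebraMap R F y := by
  refine ⟨(Matrix.of fun i j => (if α i = δ j then (1 : R) else 0)).det, ?_⟩
  rw [PowerSeries.coeff_zero_eq_constantCoeff_apply, RingHom.map_det, RingHom.map_det]
  congr 1
  ext i j
  simp only [RingHom.mapMatrix_apply, Matrix.map_apply, Matrix.submatrix_apply, hY,
    Matrix.of_apply]
  split_ifs <;> simp

theorem excess {I : Type} [Fintype I] [DecidableEq I] (w : m → ℕ) (j : ℕ) (α δ : I → m)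
    (hα : Function.Injective α) (hw : ∀ u, (∃ i, α i = u) ↔ w u ≤ j)
    (hδ : Function.Injective δ) :
    ∑ i, w (α i) ≤ ∑ i, w (δ i) ∧
      (∑ i, w (δ i) ≤ ∑ i, w (α i) → ∃ σ : Equiv.Perm I, δ = α ∘ σ) := by
  classical
  set S := Finset.univ.image δ with hS
  set T := Finset.univ.image α with hT
  have eS : ∑ i, w (δ i) = ∑ u ∈ S, w u := by
    rw [hS, Finset.sum_image (fun a _ b _ h => hδ h)]
  have eT : ∑ i, w (α i) = ∑ u ∈ T, w u := by
    rw [hT, Finset.sum_image (fun a _ b _ h => hα h)]
  have cS : S.card = T.card := by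
    rw [hS, hT, Finset.card_image_of_injective _ hδ, Finset.card_image_of_injective _ hα]
  have hTw : ∀ u, u ∈ T ↔ w u ≤ j := by
    intro u
    rw [← hw u, hT]
    simp
  have c1 : (S \ T).card = (T \ S).card := Finset.card_sdiff_comm cS
  have s1 : ∑ u ∈ S, w u = ∑ u ∈ S \ T, w u + ∑ u ∈ S ∩ T, w u := by
    rw [← Finset.sum_union (Finset.disjoint_left.2 fun a ha hb => by
      simp at ha hb; exact ha.2 hb.2), Finset.sdiff_union_inter]
  have s2 : ∑ u ∈ T, w u = ∑ u ∈ T \ S, w u + ∑ u ∈ S ∩ T, w u := by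
    rw [Finset.inter_comm, ← Finset.sum_union (Finset.disjoint_left.2 fun a ha hb => by
      simp at ha hb; exact ha.2 hb.2), Finset.sdiff_union_inter]
  have l1 : (S \ T).card * (j + 1) ≤ ∑ u ∈ S \ T, w u := by
    rw [← smul_eq_mul]
    refine Finset.card_nsmul_le_sum _ _ _ fun u hu => ?_
    rw [Finset.mem_sdiff, hTw] at hu
    omega
  have l2 : ∑ u ∈ T \ S, w u ≤ (T \ S).card * j := by
    rw [← smul_eq_mul]
    refine Finset.sum_le_card_nsmul _ _ _ fun u hu => ?_
    rw [Finset.mem_sdiff, hTw] at hu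
    exact hu.1
  have key : ∑ u ∈ T, w u + (S \ T).card ≤ ∑ u ∈ S, w u := by
    rw [s1, s2]
    have : (S \ T).card * (j + 1) = (S \ T).card * j + (S \ T).card := by ring
    rw [← c1] at l2
    omega
  rw [eS, eT]
  refine ⟨by omega, fun hle => ?_⟩
  have hc0 : (S \ T).card = 0 := by omega
  have hsub : S ⊆ T := by
    rw [Finset.card_eq_zero, Finset.sdiff_eq_empty_iff_subset] at hc0
    exact hc0
  have hex : ∀ i, ∃ i', α i' = δ i := by
    intro i
    have : δ i ∈ T := hsub (by rw [hS]; simp)
    rw [hTw, ← hw] at this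
    exact this
  choose σ hσ using hex
  have hinj : Function.Injective σ := by
    intro a b hab
    apply hδ
    rw [← hσ a, ← hσ b, hab]
  refine ⟨Equiv.ofBijective σ (Finite.injective_iff_bijective.1 hinj), ?_⟩
  ext i
  simp [hσ]

theorem main (w : m → ℕ) (j q p : ℕ) {K : Type} [CommRing K] (lam : R)
    (res : R →+* K) (Y : Matrix m m (PowerSeries F)) (bb : Matrix m m (PowerSeries K)) (βb : m → K)
    (I : Type) [Fintype I] [DecidableEq I] (α : I → m)
    (hα : Function.Injective α) (hw : ∀ u, (∃ i, α i = u) ↔ w u ≤ j) (hq : 0 < q) (hp : p ≠ 0)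
    (hp2 : 2 ≤ p) (hl : lam ≠ 0) (hrl : res lam = 0)
    (hfac : ∀ n : ℕ, 0 < n → ∃ k : ℕ, (n : R) ∣ lam ^ k)
    (hden : ∀ (n : ℕ) (u v : m), ∃ (k : ℕ) (y : R),
      algebraMap R F (lam ^ k) * PowerSeries.coeff n (Y u v) = algebraMap R F y)
    (hI : IsUnit (((Fintype.card I).factorial : ℕ) : R))
    (hY0 : ∀ u v, PowerSeries.constantCoeff (Y u v) = if u = v then 1 else 0)
    (hrel : ∀ M N : ℕ, ∃ (b Z : Matrix m m (PowerSeries R)) (Z' : Matrix m m (PowerSeries F))
      (β : m → R),
      (∀ u v, PowerSeries.map res (b u v) = bb u v) ∧ (∀ u, IsUnit (β u)) ∧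
      (∀ u, res (β u) = βb u) ∧
      ∀ u v, (M.factorial : PowerSeries F) *
        (∑ x, PowerSeries.expand p hp (Y u x) *
          PowerSeries.map (algebraMap R F) (PowerSeries.C (lam ^ (q * w x)) * b x v) -
        PowerSeries.map (algebraMap R F) (PowerSeries.C (lam ^ (q * w u) * β u)) * Y u v) =
        PowerSeries.map (algebraMap R F) (PowerSeries.C (lam ^ N) * Z u v) +
          PowerSeries.X ^ M * Z' u v) :
    ∃ V : PowerSeries R,
      PowerSeries.map (algebraMap R F) V = (Y.submatrix α α).det ∧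
      PowerSeries.C (∏ i, βb (α i)) * PowerSeries.map res V =
        PowerSeries.expand p hp (PowerSeries.map res V) * (bb.submatrix α α).det := by
  classical
  -- the relation with an error of any order
  have h0 : ∀ M s : ℕ, ∃ (b : Matrix m m (PowerSeries R)) (β : m → R),
      (∀ u v, PowerSeries.map res (b u v) = bb u v) ∧ (∀ u, IsUnit (β u)) ∧
      (∀ u, res (β u) = βb u) ∧ ∀ u v, Lat lam s M
        (∑ x, PowerSeries.expand p hp (Y u x) * (Cl F (lam ^ (q * w x)) *
          PowerSeries.map (algebraMap R F) (b x v)) - Cl F (lam ^ (q * w u) * β u) * Y u v) := by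
    intro M s
    obtain ⟨k, c, hc⟩ := hfac M.factorial (Nat.factorial_pos M)
    obtain ⟨b, Z, Z', β, hb, hβ, hβ', hr⟩ := hrel M (s + k)
    refine ⟨b, β, hb, hβ, hβ', fun u v => ?_⟩
    refine step0 hl M s k c hc _ (Z u v) (Z' u v) ?_
    rw [← hr u v]
    simp only [Cl, map_mul, PowerSeries.map_C]
  -- the bracket
  have h3 : ∀ M : ℕ, ∃ (b : Matrix m m (PowerSeries R)) (β : m → R),
      (∀ u v, PowerSeries.map res (b u v) = bb u v) ∧ (∀ u, IsUnit (β u)) ∧
      (∀ u, res (β u) = βb u) ∧ ∀ γ : I → m,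
      Lat lam 1 M (((Fintype.card I).factorial : PowerSeries F) *
      (Cl F (∏ i, β (α i)) * (Y.submatrix α γ).det) -
      ∑ δ : I → m, PowerSeries.expand p hp (Y.submatrix α δ).det *
        (Cl F (lam ^ (q * (∑ i, w (δ i) - ∑ i, w (α i)))) *
          PowerSeries.map (algebraMap R F) (b.submatrix δ γ).det)) := by
    intro M
    obtain ⟨k0, hk0⟩ := step1 Y hden M
    obtain ⟨b, β, hb, hβ, hβ', hr⟩ := h0 M ((1 + q * ∑ i, w (α i)) + k0 * Fintype.card I)
    exact ⟨b, β, hb, hβ, hβ', fun γ => step3 w q α γ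
      (fun δ hδ => (excess w j α δ hα hw hδ).1) hl hp M k0 Y hk0 b β hr⟩
  -- integrality
  have h4 : ∀ M : ℕ, ∀ γ : I → m, Lat lam 0 M (Y.submatrix α γ).det := by
    intro M
    induction M with
    | zero => intro γ n hn; omega
    | succ M ih =>
      intro γ
      obtain ⟨b, β, hb, hβ, hβ', hr⟩ := h3 (M + 1)
      have h5 : Lat lam 0 (M + 1) (∑ δ : I → m, PowerSeries.expand p hp (Y.submatrix α δ).det *
        (Cl F (lam ^ (q * (∑ i, w (δ i) - ∑ i, w (α i)))) *
          PowerSeries.map (algebraMap R F) (b.submatrix δ γ).det)) := by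
        refine Lat.sum _ _ fun δ _ => ?_
        refine Lat.mul_left (Lat_expand hp hp2 (ih δ) (const_det Y hY0 α δ)) ?_
        refine Lat.mul_left ?_ (Lat.ofMap _)
        rw [Cl_eq_map]
        exact Lat.ofMap _
      have h6 := ((hr γ).mono (Nat.zero_le 1)).add h5
      rw [sub_add_cancel] at h6
      have hu : IsUnit (∏ i, β (α i)) := by
        rw [IsUnit.prod_univ_iff]
        exact fun i => hβ _
      obtain ⟨ε, hε⟩ := hI.mul hu
      have h7 : (Y.submatrix α γ).det = Cl F ((ε⁻¹ : Rˣ) : R) *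
          (((Fintype.card I).factorial : PowerSeries F) *
            (Cl F (∏ i, β (α i)) * (Y.submatrix α γ).det)) := by
        have e1 : (((Fintype.card I).factorial : PowerSeries F)) =
            Cl F (((Fintype.card I).factorial : ℕ) : R) := by simp [Cl]
        rw [e1, ← mul_assoc (Cl F _) (Cl F _) ((Y.submatrix α γ).det), ← mul_assoc, ← Cl_mul, ← Cl_mul, ← hε]
        simp [Cl]
      rw [h7]
      refine Lat.mul_left ?_ h6
      rw [Cl_eq_map]
      exact Lat.ofMap _
  have h5 : ∀ γ : I → m, ∃ V : PowerSeries R,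
      PowerSeries.map (algebraMap R F) V = (Y.submatrix α γ).det := by
    intro γ
    have : ∀ n, ∃ y : R, PowerSeries.coeff n (Y.submatrix α γ).det = algebraMap R F y := by
      intro n
      obtain ⟨y, hy⟩ := h4 (n + 1) γ n (Nat.lt_succ_self n)
      exact ⟨y, by simpa using hy⟩
    choose y hy using this
    refine ⟨PowerSeries.mk y, ?_⟩
    ext n
    rw [PowerSeries.coeff_map, PowerSeries.coeff_mk, hy]
  choose V hV using h5
  have hinj : Function.Injective (PowerSeries.map (algebraMap R F)) :=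
    PowerSeries.map_injective _ (IsFractionRing.injective R F)
  refine ⟨V α, hV α, ?_⟩
  ext n
  obtain ⟨b, β, hb, hβ, hβ', hr⟩ := h3 (n + 1)
  have h6 := hr α
  set G : PowerSeries R := ((Fintype.card I).factorial : PowerSeries R) *
      (PowerSeries.C (∏ i, β (α i)) * V α) -
      ∑ δ : I → m, PowerSeries.expand p hp (V δ) *
        (PowerSeries.C (lam ^ (q * (∑ i, w (δ i) - ∑ i, w (α i)))) * (b.submatrix δ α).det) with hG
  have hGF : PowerSeries.map (algebraMap R F) G =
      ((Fintype.card I).factorial : PowerSeries F) *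
      (Cl F (∏ i, β (α i)) * (Y.submatrix α α).det) -
      ∑ δ : I → m, PowerSeries.expand p hp (Y.submatrix α δ).det *
        (Cl F (lam ^ (q * (∑ i, w (δ i) - ∑ i, w (α i)))) *
          PowerSeries.map (algebraMap R F) (b.submatrix δ α).det) := by
    rw [hG, map_sub, map_mul, map_mul, map_natCast, map_sum, ← Cl_eq_map, hV]
    congr 1
    refine Finset.sum_congr rfl fun δ _ => ?_
    rw [map_mul, map_mul, ← Cl_eq_map, PowerSeries.map_expand, hV]
  rw [← hGF] at h6
  obtain ⟨y, hy⟩ := h6 n (Nat.lt_succ_self n)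
  rw [PowerSeries.coeff_map] at hy
  have hy' : PowerSeries.coeff n G = lam ^ 1 * y := IsFractionRing.injective R F hy
  have h7 : PowerSeries.coeff n (PowerSeries.map res G) = 0 := by
    rw [PowerSeries.coeff_map, hy', map_mul, pow_one, hrl, zero_mul]
  have hVα : ∀ σ : Equiv.Perm I, V (α ∘ σ) = ((Equiv.Perm.sign σ : ℤ) : PowerSeries R) * V α := by
    intro σ
    apply hinj
    rw [hV, map_mul, hV, map_intCast]
    have : Y.submatrix α (α ∘ σ) = (Y.submatrix α α).submatrix id σ := rfl
    rw [this, Matrix.det_permute']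
  have hV0 : ∀ δ : I → m, ¬ Function.Injective δ → V δ = 0 := by
    intro δ hδ
    apply hinj
    rw [hV, map_zero]
    rw [Function.Injective] at hδ
    push Not at hδ
    obtain ⟨i, i', hij, hne⟩ := hδ
    exact Matrix.det_zero_of_column_eq hne (fun k => by simp [hij])
  have hbb : ∀ δ : I → m, PowerSeries.map res (b.submatrix δ α).det = (bb.submatrix δ α).det := by
    intro δ
    rw [RingHom.map_det]
    congr 1
    ext i i'
    simp [hb]
  set f := ((Fintype.card I).factorial : PowerSeries K) with hf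
  have h8 : PowerSeries.map res G = f * (PowerSeries.C (∏ i, βb (α i)) * PowerSeries.map res (V α) -
      PowerSeries.expand p hp (PowerSeries.map res (V α)) * (bb.submatrix α α).det) := by
    rw [hG, map_sub, map_mul, map_mul, map_natCast, map_sum, PowerSeries.map_C, map_prod, mul_sub]
    simp only [hβ']
    congr 1
    have h9 : ∑ σ : Equiv.Perm I, PowerSeries.expand p hp (PowerSeries.map res (V α)) *
        (bb.submatrix α α).det = ∑ δ : I → m, PowerSeries.map res (PowerSeries.expand p hp (V δ) *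
        (PowerSeries.C (lam ^ (q * (∑ i, w (δ i) - ∑ i, w (α i)))) * (b.submatrix δ α).det)) := by
      refine Fintype.sum_of_injective (fun σ : Equiv.Perm I => α ∘ σ) ?_ _ _ ?_ ?_
      · intro σ τ h
        ext i
        exact hα (congrFun h i)
      · intro δ hδ
        by_cases hinjδ : Function.Injective δ
        · obtain ⟨_, h2⟩ := excess w j α δ hα hw hinjδ
          have h3 : ¬ ∑ i, w (δ i) ≤ ∑ i, w (α i) := by
            intro hle
            obtain ⟨σ, hσ⟩ := h2 hle
            exact hδ ⟨σ, hσ.symm⟩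
          have h4 : q * (∑ i, w (δ i) - ∑ i, w (α i)) ≠ 0 := by
            apply Nat.mul_ne_zero <;> omega
          rw [map_mul, map_mul, PowerSeries.map_C, map_pow, hrl, zero_pow h4]
          simp
        · rw [hV0 δ hinjδ]
          simp
      · intro σ
        have e1 : ∑ i, w ((α ∘ σ) i) = ∑ i, w (α i) := by
          simp only [Function.comp_apply]
          exact Equiv.sum_comp σ (fun i => w (α i))
        have e2 : (bb.submatrix (α ∘ σ) α).det = ((Equiv.Perm.sign σ : ℤ) : PowerSeries K) *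
            (bb.submatrix α α).det := by
          have : bb.submatrix (α ∘ σ) α = (bb.submatrix α α).submatrix σ id := rfl
          rw [this, Matrix.det_permute]
        have e3 : ((Equiv.Perm.sign σ : ℤ) : PowerSeries K) *
            ((Equiv.Perm.sign σ : ℤ) : PowerSeries K) = 1 := by
          rw [← Int.cast_mul]
          rcases Int.units_eq_one_or (Equiv.Perm.sign σ) with h | h <;> simp [h]
        simp only [map_mul, hbb, e1, e2, hVα, Nat.sub_self, mul_zero, pow_zero, map_one, one_mul,
          map_intCast, PowerSeries.map_expand]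
        linear_combination (-(PowerSeries.expand p hp (PowerSeries.map res (V α)) *
          (bb.submatrix α α).det)) * e3
    rw [← h9, Finset.sum_const, Finset.card_univ, Fintype.card_perm, nsmul_eq_mul]
  have hfu : IsUnit (((Fintype.card I).factorial : ℕ) : K) := by
    have := hI.map res
    rwa [map_natCast] at this
  rw [h8, hf] at h7
  have e4 : (((Fintype.card I).factorial : ℕ) : PowerSeries K) =
      PowerSeries.C ((((Fintype.card I).factorial : ℕ)) : K) := by simp
  rw [e4, PowerSeries.coeff_C_mul] at h7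
  have h10 := (IsUnit.mul_right_eq_zero hfu).1 h7
  rw [map_sub, sub_eq_zero] at h10
  exact h10

end Main

/-- (Min) minors: integrality and congruence -/
theorem h_Min : Pool.Agent.H887.BK.S_Min := by
  intro m _ _ w j q p R K F _ _ _ _ _ _ _ lam res Y bb βb I _ _ α hα hw hq hp hp2 hl hres hrl
    hfac hden hI hY0 hrel
  exact main w j q p lam res Y bb βb I α hα hw hq hp hp2 hl hrl hfac hden hI hY0 hrel

end Pool.Agent.H694.BKMin
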